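import Pool.Agent.H91.BetaTr

set_option autoImplicit false

open H91.BetaTr in
theorem Pool.Agent.Results.MP_ea58a7_an.Transitive.result :
    ∀ α β : ℝ, 1 < β → β ≤ 2 → 0 ≤ α → α + β ≤ 2 →
    (α ≤ 1 - 1 / β ∨ 1 + 1 / β - β ≤ α) → Trans α β :=
  main
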